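import Mathlib

set_option autoImplicit false

/-! Kempe chains at a vertex of a smallest colour class: all links of a chromatic scheme at two
basis vertices, and the whole scheme at a vertex of small degree. -/

namespace Pool.Agent.Results.MP_89ec71_co.KempeAtMinClass

open Classical

variable {V : Type} {G : SimpleGraph V} {n : ℕ}

/-- `x` and `y` are joined by a path all of whose vertices have the colour of `x` or of `y` -/
def Bi (Q : G.Coloring (Fin (n + 1))) (x y : V) : Prop :=
  ∃ p : G.Walk x y, p.IsPath ∧ ∀ z ∈ p.support, Q z = Q x ∨ Q z = Q y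

/-- reachable inside the colours `i`, `j` -/
def R (Q : G.Coloring (Fin (n + 1))) (i j : Fin (n + 1)) (x y : V) : Prop :=
  Relation.ReflTransGen (fun a b => G.Adj a b ∧ (Q b = i ∨ Q b = j)) x y

theorem R_col {Q : G.Coloring (Fin (n + 1))} {i j : Fin (n + 1)} {x y : V}
    (hx : Q x = i ∨ Q x = j) (h : R Q i j x y) : Q y = i ∨ Q y = j := by
  induction h with
  | refl => exact hx
  | tail _ h2 _ => exact h2.2

theorem R_bi {Q : G.Coloring (Fin (n + 1))} {i j : Fin (n + 1)} {x y : V}
    (hx : Q x = i) (hy : Q y = j) (h : R Q i j x y) : Bi Q x y := by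
  have h1 : ∃ p : G.Walk x y, ∀ z ∈ p.support, Q z = i ∨ Q z = j := by
    clear hy
    induction h with
    | refl => exact ⟨SimpleGraph.Walk.nil, by simp [hx]⟩
    | @tail b c _ h2 ih =>
      obtain ⟨p, hp⟩ := ih
      refine ⟨p.concat h2.1, ?_⟩
      intro z hz
      rw [SimpleGraph.Walk.support_concat] at hz
      simp only [List.mem_append, List.mem_singleton] at hz
      rcases hz with hz | rfl
      · exact hp z hz
      · exact h2.2
  obtain ⟨p, hp⟩ := h1
  refine ⟨p.bypass, p.bypass_isPath, fun z hz => ?_⟩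
  rw [hx, hy]
  exact hp z (p.support_bypass_subset_support hz)

theorem Bi.symm {Q : G.Coloring (Fin (n + 1))} {x y : V} (h : Bi Q x y) : Bi Q y x := by
  obtain ⟨p, hp, hc⟩ := h
  refine ⟨p.reverse, hp.reverse, fun z hz => ?_⟩
  rw [SimpleGraph.Walk.support_reverse, List.mem_reverse] at hz
  exact (hc z hz).symm

theorem Bi.of_adj {Q : G.Coloring (Fin (n + 1))} {x y : V} (h : G.Adj x y) : Bi Q x y := by
  refine ⟨h.toWalk, SimpleGraph.Walk.IsPath.of_adj h, fun z hz => ?_⟩
  simp only [SimpleGraph.Walk.support_cons, SimpleGraph.Walk.support_nil, List.mem_cons,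
    List.not_mem_nil, or_false] at hz
  rcases hz with rfl | rfl
  · exact Or.inl rfl
  · exact Or.inr rfl

/-- Kempe change on a closed set -/
noncomputable def kempe (Q : G.Coloring (Fin (n + 1))) (i j : Fin (n + 1)) (C : Set V)
    (h1 : ∀ x ∈ C, Q x = i ∨ Q x = j)
    (h2 : ∀ x ∈ C, ∀ y, G.Adj x y → (Q y = i ∨ Q y = j) → y ∈ C) : G.Coloring (Fin (n + 1)) :=
  SimpleGraph.Coloring.mk (fun x => if x ∈ C then Equiv.swap i j (Q x) else Q x) (by
    intro x y hxy
    have hne := Q.valid hxy
    have key : ∀ a : Fin (n + 1), a = i ∨ a = j → Equiv.swap i j a = i ∨ Equiv.swap i j a = j := by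
      rintro a (rfl | rfl)
      · exact Or.inr (Equiv.swap_apply_left _ _)
      · exact Or.inl (Equiv.swap_apply_right _ _)
    by_cases hx : x ∈ C <;> by_cases hy : y ∈ C
    · simp only [hx, hy, if_true]
      intro h
      exact hne ((Equiv.swap i j).injective h)
    · simp only [hx, hy, if_true, if_false]
      intro h
      exact hy (h2 x hx y hxy (by rw [← h]; exact key _ (h1 x hx)))
    · simp only [hx, hy, if_true, if_false]
      intro h
      exact hx (h2 y hy x hxy.symm (by rw [h]; exact key _ (h1 y hy)))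
    · simp only [hx, hy, if_false]
      exact hne)

theorem kempe_apply (Q : G.Coloring (Fin (n + 1))) (i j : Fin (n + 1)) (C : Set V)
    (h1 : ∀ x ∈ C, Q x = i ∨ Q x = j)
    (h2 : ∀ x ∈ C, ∀ y, G.Adj x y → (Q y = i ∨ Q y = j) → y ∈ C) (x : V) :
    kempe Q i j C h1 h2 x = if x ∈ C then Equiv.swap i j (Q x) else Q x := rfl

/-- the chain of a vertex is closed -/
theorem chain_closed {Q : G.Coloring (Fin (n + 1))} {i j : Fin (n + 1)} {x : V} :
    ∀ a ∈ {z | R Q i j x z}, ∀ b, G.Adj a b → (Q b = i ∨ Q b = j) → b ∈ {z | R Q i j x z} :=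
  fun _ ha _ hab hb => Relation.ReflTransGen.tail ha ⟨hab, hb⟩

theorem swap_last {i j c : Fin (n + 1)} (hi : i ≠ Fin.last n) (hj : j ≠ Fin.last n)
    : Equiv.swap i j c = Fin.last n ↔ c = Fin.last n := by
  rw [Equiv.swap_apply_def]
  split_ifs with h1 h2
  · subst h1; exact ⟨fun h => absurd h hj, fun h => absurd h hi⟩
  · subst h2; exact ⟨fun h => absurd h hi, fun h => absurd h hj⟩
  · exact Iff.rfl

theorem kempe_last {Q : G.Coloring (Fin (n + 1))} {i j : Fin (n + 1)} {C : Set V}
    {h1 : ∀ x ∈ C, Q x = i ∨ Q x = j}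
    {h2 : ∀ x ∈ C, ∀ y, G.Adj x y → (Q y = i ∨ Q y = j) → y ∈ C}
    (hi : i ≠ Fin.last n) (hj : j ≠ Fin.last n) (x : V) :
    kempe Q i j C h1 h2 x = Fin.last n ↔ Q x = Fin.last n := by
  rw [kempe_apply]
  split_ifs
  · exact swap_last hi hj
  · exact Iff.rfl

/-- every colour occurs at a vertex of a smallest colour class -/
theorem all_colours [Fintype V] {Q0 : G.Coloring (Fin (n + 1))}
    (hmin : ∀ Q : G.Coloring (Fin (n + 1)),
      {x | Q0 x = Fin.last n}.ncard ≤ {x | Q x = Fin.last n}.ncard)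
    {w : V} (hw : Q0 w = Fin.last n) {Q : G.Coloring (Fin (n + 1))}
    (hQ : ∀ x, Q x = Fin.last n ↔ Q0 x = Fin.last n) {c : Fin (n + 1)} (hc : c ≠ Fin.last n) :
    ∃ x, G.Adj w x ∧ Q x = c := by
  by_contra hcon
  push Not at hcon
  let Q' : G.Coloring (Fin (n + 1)) := SimpleGraph.Coloring.mk
    (fun x => if x = w then c else Q x) (by
      intro x y hxy
      by_cases hx : x = w <;> by_cases hy : y = w
      · subst hx; subst hy; exact absurd hxy (G.irrefl)
      · subst hx
        simp only [hy, if_true, if_false]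
        exact fun h => hcon y hxy h.symm
      · subst hy
        simp only [hx, if_true, if_false]
        exact fun h => hcon x hxy.symm h
      · simp only [hx, hy, if_false]
        exact Q.valid hxy)
  have hQ' : ∀ x, Q' x = if x = w then c else Q x := fun x => rfl
  have h1 := hmin Q'
  have h2 : {x | Q' x = Fin.last n} ⊂ {x | Q0 x = Fin.last n} := by
    rw [Set.ssubset_iff_of_subset]
    · refine ⟨w, hw, ?_⟩
      intro h
      have h3 : Q' w = Fin.last n := h
      rw [hQ', if_pos rfl] at h3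
      exact hc h3
    · intro x hx
      have h3 : Q' x = Fin.last n := hx
      rw [hQ'] at h3
      split_ifs at h3 with h4
      · exact absurd h3 hc
      · exact (hQ x).1 h3
  have h3 := Set.ncard_lt_ncard h2 (Set.toFinite _)
  omega

theorem result {V : Type} [Fintype V] (G : SimpleGraph V) (n : ℕ) (hn : 1 ≤ n)
    (Q0 : G.Coloring (Fin (n + 1)))
    (hmin : ∀ Q : G.Coloring (Fin (n + 1)),
      {x | Q0 x = Fin.last n}.ncard ≤ {x | Q x = Fin.last n}.ncard)
    (w : V) (hw : Q0 w = Fin.last n) :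
    ∃ (Q : G.Coloring (Fin (n + 1))) (v : Fin (n + 1) → V),
      (∀ x, Q x = Fin.last n ↔ Q0 x = Fin.last n) ∧ v (Fin.last n) = w ∧
      (∀ i, Q (v i) = i) ∧ (∀ i, i ≠ Fin.last n → G.Adj w (v i)) ∧
      (∀ i, i ≠ 0 → Bi Q (v 0) (v i)) ∧
      ((G.neighborSet w).ncard ≤ n → ∀ i j, i ≠ j → Bi Q (v i) (v j)) := by
  have h0l : (0 : Fin (n + 1)) ≠ Fin.last n := by
    intro h
    have := congrArg Fin.val h
    simp at this
    omega
  set f : G.Coloring (Fin (n + 1)) → ℕ := fun Q => {x | G.Adj w x ∧ Q x = 0}.ncard with hf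
  obtain ⟨Q, hQ, hfm⟩ : ∃ Q : G.Coloring (Fin (n + 1)),
      (∀ x, Q x = Fin.last n ↔ Q0 x = Fin.last n) ∧
      ∀ Q' : G.Coloring (Fin (n + 1)), (∀ x, Q' x = Fin.last n ↔ Q0 x = Fin.last n) →
        f Q ≤ f Q' := by
    obtain ⟨m, hm, h⟩ := (measure f).wf.has_min
      {Q : G.Coloring (Fin (n + 1)) | ∀ x, Q x = Fin.last n ↔ Q0 x = Fin.last n}
      ⟨Q0, fun x => Iff.rfl⟩
    exact ⟨m, hm, fun Q' h' => not_lt.1 (h Q' h')⟩
  have hQw : Q w = Fin.last n := (hQ w).2 hw
  obtain ⟨x0, hx0, hc0⟩ := all_colours hmin hw hQ h0l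
  have step2 : ∀ i : Fin (n + 1), i ≠ 0 → i ≠ Fin.last n →
      ∃ y, G.Adj w y ∧ Q y = i ∧ R Q 0 i x0 y := by
    intro i hi0 hil
    by_contra hcon
    push Not at hcon
    have hcol : ∀ z ∈ {z | R Q 0 i x0 z}, Q z = 0 ∨ Q z = i := fun z hz =>
      R_col (Or.inl hc0) hz
    have h1 := hfm (kempe Q 0 i {z | R Q 0 i x0 z} hcol chain_closed)
      (fun x => (kempe_last h0l hil x).trans (hQ x))
    have h2 : {x | G.Adj w x ∧ kempe Q 0 i {z | R Q 0 i x0 z} hcol chain_closed x = 0} ⊂
        {x | G.Adj w x ∧ Q x = 0} := by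
      rw [Set.ssubset_iff_of_subset]
      · refine ⟨x0, ⟨hx0, hc0⟩, ?_⟩
        rintro ⟨_, h3⟩
        have hm : x0 ∈ {z | R Q 0 i x0 z} := Relation.ReflTransGen.refl
        rw [kempe_apply, if_pos hm, hc0, Equiv.swap_apply_left] at h3
        exact hi0 h3
      · rintro x ⟨hx, h3⟩
        refine ⟨hx, ?_⟩
        rw [kempe_apply] at h3
        split_ifs at h3 with h4
        · rcases hcol x h4 with h5 | h5
          · exact h5
          · exact absurd h4 (hcon x hx h5)
        · exact h3
    have h3 := Set.ncard_lt_ncard h2 (Set.toFinite _)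
    simp only [hf] at h1
    omega
  have hv : ∀ i : Fin (n + 1), ∃ y, (i = Fin.last n → y = w) ∧ (i = 0 → y = x0) ∧ Q y = i ∧
      (i ≠ Fin.last n → G.Adj w y) ∧ (i ≠ Fin.last n → R Q 0 i x0 y) := by
    intro i
    by_cases hil : i = Fin.last n
    · subst hil
      exact ⟨w, fun _ => rfl, fun h => absurd h.symm h0l, hQw, fun h => absurd rfl h,
        fun h => absurd rfl h⟩
    · by_cases hi0 : i = 0
      · subst hi0
        exact ⟨x0, fun h => absurd h h0l, fun _ => rfl, hc0, fun _ => hx0,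
          fun _ => Relation.ReflTransGen.refl⟩
      · obtain ⟨y, h1, h2, h3⟩ := step2 i hi0 hil
        exact ⟨y, fun h => absurd h hil, fun h => absurd h hi0, h2, fun _ => h1, fun _ => h3⟩
  choose v hv1 hv2 hv3 hv4 hv5 using hv
  have hvw : v (Fin.last n) = w := hv1 _ rfl
  have hv0 : v 0 = x0 := hv2 _ rfl
  refine ⟨Q, v, hQ, hvw, hv3, hv4, ?_, ?_⟩
  · intro i hi
    by_cases hil : i = Fin.last n
    · subst hil
      rw [hvw]
      exact (Bi.of_adj (hv4 0 h0l)).symm
    · rw [hv0]
      exact R_bi hc0 (hv3 i) (hv5 i hil)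
  · intro hdeg
    have hinj : Function.Injective v := fun a b hab => by
      rw [← hv3 a, ← hv3 b, hab]
    have hT : v '' {i | i ≠ Fin.last n} ⊆ G.neighborSet w := by
      rintro _ ⟨i, hi, rfl⟩
      exact hv4 i hi
    have hcard : (v '' {i | i ≠ Fin.last n}).ncard = n := by
      rw [Set.ncard_image_of_injective _ hinj]
      have e1 : {i : Fin (n + 1) | i ≠ Fin.last n} = ({Fin.last n} : Set (Fin (n + 1)))ᶜ := by
        ext i; simp
      rw [e1, Set.ncard_compl, Set.ncard_singleton, Nat.card_eq_fintype_card, Fintype.card_fin]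
      rfl
    have hEq : v '' {i | i ≠ Fin.last n} = G.neighborSet w :=
      Set.eq_of_subset_of_ncard_le hT (by rw [hcard]; exact hdeg) (Set.toFinite _)
    have huniq : ∀ x, G.Adj w x → x = v (Q x) := by
      intro x hx
      have hx' : x ∈ v '' {i | i ≠ Fin.last n} := by rw [hEq]; exact hx
      obtain ⟨k, _, rfl⟩ := hx'
      rw [hv3]
    have main : ∀ i j : Fin (n + 1), i ≠ Fin.last n → j ≠ Fin.last n → i ≠ j →
        Bi Q (v i) (v j) := by
      intro i j hil hjl hij
      refine R_bi (hv3 i) (hv3 j) ?_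
      by_contra hcon
      have hcol : ∀ z ∈ {z | R Q i j (v i) z}, Q z = i ∨ Q z = j := fun z hz =>
        R_col (Or.inl (hv3 i)) hz
      obtain ⟨x, hx, hxc⟩ := all_colours hmin hw
        (Q := kempe Q i j {z | R Q i j (v i) z} hcol chain_closed)
        (fun x => (kempe_last hil hjl x).trans (hQ x)) hil
      rw [kempe_apply] at hxc
      have hxv := huniq x hx
      split_ifs at hxc with h4
      · rcases hcol x h4 with h5 | h5
        · rw [h5, Equiv.swap_apply_left] at hxc
          exact hij hxc.symm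
        · apply hcon
          rw [h5] at hxv
          rw [← hxv]
          exact h4
      · apply h4
        rw [hxc] at hxv
        rw [hxv]
        exact Relation.ReflTransGen.refl
    intro i j hij
    by_cases hil : i = Fin.last n
    · subst hil
      rw [hvw]
      exact Bi.of_adj (hv4 j (Ne.symm hij))
    · by_cases hjl : j = Fin.last n
      · subst hjl
        rw [hvw]
        exact (Bi.of_adj (hv4 i hil)).symm
      · exact main i j hil hjl hij

end Pool.Agent.Results.MP_89ec71_co.KempeAtMinClass
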